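import Mathlib
import Pool.Agent.Helper52.Circle.Small

/-!
The circle problem with the exponent two thirds and a small explicit constant:
for every real radius R at least 0 the number of integer points in the closed disk of radius R
differs from the area by at most 3 (pi R)^(2/3) + 1.
-/

namespace Pool.Agent.Results.MP_fb29e9_nt.ExplicitTwoThirds

theorem result (R : ℝ) (hR : 0 ≤ R) :
    |(Nat.card {p : ℤ × ℤ // (p.1 : ℝ) ^ 2 + (p.2 : ℝ) ^ 2 ≤ R ^ 2} : ℝ) - Real.pi * R ^ 2| ≤
      3 * (Real.pi * R) ^ ((2 : ℝ) / 3) + 1 :=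
  Helper52.Circle.explicit_two_thirds hR

end Pool.Agent.Results.MP_fb29e9_nt.ExplicitTwoThirds
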